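import Pool.Agent.H389R2.NS.Pair1
import Pool.Agent.N931.PN.Stm5

/-!
# PN/DRV: the spectral weight and the derivatives (helper487)
-/

set_option autoImplicit false

namespace Pool.Agent.N487.PN.Drv

open H974 H389NS Finset

section

variable {E : Type*} [DecidableEq E]

lemma wal_congr (S : Finset E) {f g : Finset E → ℝ} (h : ∀ F, F ⊆ S → f F = g F) (T : Finset E) :
    wal S f T = wal S g T := by
  unfold wal
  apply Ex_congr
  intro F hF
  rw [h F hF]

lemma wal_dif {e : E} {S : Finset E} (he : e ∉ S) (h : Finset E → ℝ) {T : Finset E} (hT : T ⊆ S) :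
    wal (insert e S) (dif e h) (insert e T) = 0 ∧
      wal (insert e S) (dif e h) T ^ 2 = 4 * wal (insert e S) h (insert e T) ^ 2 := by
  obtain ⟨h1, h2⟩ := A6_wal_insert he hT (dif e h)
  obtain ⟨-, h4⟩ := A6_wal_insert he hT h
  have e1 : ∀ F, F ⊆ S → dif e h (insert e F) = h (insert e F) - h F := by
    intro F hF
    have : e ∉ F := fun h => he (hF h)
    unfold dif
    rw [Finset.insert_idem, Finset.erase_insert this]
  have e2 : ∀ F, F ⊆ S → dif e h F = h (insert e F) - h F := by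
    intro F hF
    have : e ∉ F := fun h => he (hF h)
    unfold dif
    rw [Finset.erase_eq_of_notMem this]
  have e3 : wal S (fun F => dif e h (insert e F)) T = wal S (fun F => h (insert e F)) T - wal S h T := by
    rw [wal_congr S e1]
    unfold wal
    rw [← Ex_sub]
    congr 1
    funext F
    ring
  have e4 : wal S (dif e h) T = wal S (fun F => h (insert e F)) T - wal S h T := by
    rw [wal_congr S e2]
    unfold wal
    rw [← Ex_sub]
    congr 1
    funext F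
    ring
  rw [h1, h2, e3, e4, h4]
  constructor <;> ring

lemma E2_dif {e : E} {S : Finset E} (he : e ∈ S) (h : Finset E → ℝ) (y : ℝ) :
    E2 (fun _ => y) S (fun F F' => dif e h F * dif e h F') =
      4 * ∑ U ∈ S.powerset, if e ∈ U then wal S h U ^ 2 * y ^ (U.card - 1) else 0 := by
  obtain ⟨S₀, hS₀, rfl⟩ : ∃ S₀ : Finset E, e ∉ S₀ ∧ S = insert e S₀ :=
    ⟨S.erase e, Finset.notMem_erase e S, (Finset.insert_erase he).symm⟩
  rw [E2_wal, Finset.sum_powerset_insert hS₀, Finset.sum_powerset_insert hS₀]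
  have z1 : ∑ T ∈ S₀.powerset, wal (insert e S₀) (dif e h) (insert e T) * wal (insert e S₀) (dif e h) (insert e T) *
      ∏ _e ∈ insert e T, y = 0 := by
    refine Finset.sum_eq_zero fun T hT => ?_
    rw [(wal_dif hS₀ h (Finset.mem_powerset.1 hT)).1]
    ring
  have z2 : ∑ U ∈ S₀.powerset, (if e ∈ U then wal (insert e S₀) h U ^ 2 * y ^ (U.card - 1) else 0) = 0 := by
    refine Finset.sum_eq_zero fun T hT => ?_
    rw [if_neg fun h => hS₀ (Finset.mem_powerset.1 hT h)]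
  rw [z1, z2, add_zero, zero_add, Finset.mul_sum]
  refine Finset.sum_congr rfl fun T hT => ?_
  have hT' := Finset.mem_powerset.1 hT
  have heT : e ∉ T := fun h => hS₀ (hT' h)
  rw [if_pos (Finset.mem_insert_self e T), Finset.card_insert_of_notMem heT, Nat.add_sub_cancel, Finset.prod_const,
    ← pow_two, (wal_dif hS₀ h hT').2]
  ring

lemma sum_dif (S : Finset E) (h : Finset E → ℝ) (y : ℝ) :
    ∑ e ∈ S, E2 (fun _ => y) S (fun F F' => dif e h F * dif e h F') =
      4 * ∑ U ∈ S.powerset, (U.card : ℝ) * (wal S h U ^ 2 * y ^ (U.card - 1)) := by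
  rw [Finset.sum_congr rfl fun e he => E2_dif he h y, ← Finset.mul_sum, Finset.sum_comm]
  congr 1
  refine Finset.sum_congr rfl fun U hU => ?_
  rw [← Finset.sum_filter, Finset.sum_const, nsmul_eq_mul]
  congr 2
  have : S.filter (fun e => e ∈ U) = U := by
    ext e
    simp only [Finset.mem_filter]
    exact ⟨fun h => h.2, fun h => ⟨Finset.mem_powerset.1 hU h, h⟩⟩
  rw [this]

lemma num {ε : ℝ} (h0 : 0 < ε) (h1 : ε ≤ 1 / 2) (u : ℕ) (hu : 1 ≤ u) :
    ε * (u : ℝ) * (1 - 2 * ε) ^ (u - 1) ≤ 4 * (1 - ε) ^ u := by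
  obtain ⟨s, hs⟩ : ∃ s : ℝ, s = 1 - ε := ⟨_, rfl⟩
  rw [← hs]
  have hs0 : 1 / 2 ≤ s := by linarith
  have hsp : 0 < s := by linarith
  have hy0 : 0 ≤ 1 - 2 * ε := by linarith
  have hy : 1 - 2 * ε ≤ s ^ 2 := by
    rw [hs]
    nlinarith
  have h2 : (1 - 2 * ε) ^ (u - 1) ≤ (s ^ 2) ^ (u - 1) := pow_le_pow_left₀ hy0 hy _
  have h3 : 1 + (u : ℝ) * ε ≤ (1 + ε) ^ u := one_add_mul_le_pow (by linarith) u
  have h4 : s ^ u * (1 + ε) ^ u ≤ 1 := by
    rw [← mul_pow]
    exact pow_le_one₀ (by positivity) (by rw [hs]; nlinarith)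
  have hsu : 0 < s ^ u := pow_pos hsp u
  have h5 : ε * u * s ^ u ≤ 1 := by
    have : s ^ u * (1 + u * ε) ≤ 1 := (mul_le_mul_of_nonneg_left h3 hsu.le).trans h4
    nlinarith
  have hu0 : (0 : ℝ) ≤ u := Nat.cast_nonneg u
  have h6 : s ^ 2 * (s ^ 2) ^ (u - 1) = s ^ u * s ^ u := by
    rw [← pow_succ', Nat.sub_add_cancel hu, ← pow_mul, mul_comm 2 u, pow_mul, pow_two]
  have h8 : 1 ≤ 4 * s ^ 2 := by nlinarith
  have h7 : s ^ 2 * (ε * u * (1 - 2 * ε) ^ (u - 1)) ≤ s ^ 2 * (4 * s ^ u) := by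
    calc s ^ 2 * (ε * u * (1 - 2 * ε) ^ (u - 1)) ≤ s ^ 2 * (ε * u * (s ^ 2) ^ (u - 1)) := by gcongr
      _ = (ε * u * s ^ u) * s ^ u := by
          calc s ^ 2 * (ε * u * (s ^ 2) ^ (u - 1)) = ε * u * (s ^ 2 * (s ^ 2) ^ (u - 1)) := by ring
            _ = _ := by rw [h6]; ring
      _ ≤ 1 * s ^ u := mul_le_mul_of_nonneg_right h5 hsu.le
      _ ≤ (4 * s ^ 2) * s ^ u := mul_le_mul_of_nonneg_right h8 hsu.le
      _ = s ^ 2 * (4 * s ^ u) := by ring
  exact le_of_mul_le_mul_left h7 (by positivity)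

/-- the statement with the definition of `WT` unfolded -/
theorem core (S : Finset E) (h : Finset E → ℝ) (ε : ℝ) (h0 : 0 < ε) (h1 : ε ≤ 1 / 2) :
    1 / 16 * ε * ∑ e ∈ S, E2 (fun _ => 1 - 2 * ε) S (fun F F' => dif e h F * dif e h F') ≤
      ∑ T ∈ S.powerset.filter (fun T => T.Nonempty), (wal S h T) ^ 2 * (1 - ε) ^ T.card := by
  rw [sum_dif, Finset.sum_filter, ← mul_assoc, Finset.mul_sum]
  refine Finset.sum_le_sum fun U _ => ?_
  by_cases hU : U.Nonempty
  · rw [if_pos hU]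
    have h2 := num h0 h1 U.card (Finset.card_pos.2 hU)
    have h3 : 0 ≤ wal S h U ^ 2 := sq_nonneg _
    calc 1 / 16 * ε * 4 * ((U.card : ℝ) * (wal S h U ^ 2 * (1 - 2 * ε) ^ (U.card - 1)))
        = wal S h U ^ 2 * (1 / 4 * (ε * (U.card : ℝ) * (1 - 2 * ε) ^ (U.card - 1))) := by ring
      _ ≤ wal S h U ^ 2 * (1 / 4 * (4 * (1 - ε) ^ U.card)) := by gcongr
      _ = wal S h U ^ 2 * (1 - ε) ^ U.card := by ring
  · rw [if_neg hU]
    rw [Finset.not_nonempty_iff_eq_empty] at hU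
    subst hU
    simp

end

/-- **PN/DRV.** -/
theorem main : Pool.Agent.N931.PN.S_DRV :=
  ⟨1 / 16, by norm_num, fun S h ε h0 h1 => core S h ε h0 h1⟩

end Pool.Agent.N487.PN.Drv
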